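import Pool.Agent.W600.Opp.Core

namespace Pool.Agent.W600.Opp

open Finset

variable {V : Type*} [DecidableEq V]

/-- standing hypotheses of the reduced case -/
structure Red (W : Finset V) (f : Finset V → ℤ) (r : V) : Prop where
  sub : Sub W f
  emp : f ∅ = 0
  top : f W = 0
  pos : ∀ X, X ⊆ W → X ≠ ∅ → X ≠ W → 1 ≤ f X
  le2 : ∀ X, X ⊆ W → f X ≤ 2
  one : ∀ i ∈ W, i ≠ r → f {i} ≤ 1 ∧ f (W \ {i}) ≤ 1

def DD (f : Finset V → ℤ) (D : Finset V) : Prop :=
  D.Nonempty ∧ ∀ X, X ⊆ D → X.Nonempty → f X = 1

def UU (W : Finset V) (f : Finset V → ℤ) (U : Finset V) : Prop :=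
  U.Nonempty ∧ ∀ X, X ⊆ U → X.Nonempty → f (W \ X) = 1

variable {W : Finset V} {f : Finset V → ℤ} {r : V}

theorem Red.nonneg (h : Red W f r) {X : Finset V} (hX : X ⊆ W) : 0 ≤ f X := by
  by_cases h1 : X = ∅
  · rw [h1, h.emp]
  by_cases h2 : X = W
  · rw [h2, h.top]
  linarith [h.pos X hX h1 h2]

theorem DD.mono {D D' : Finset V} (h : DD f D) (h' : D' ⊆ D) (hn : D'.Nonempty) : DD f D' :=
  ⟨hn, fun X hX hXn => h.2 X (hX.trans h') hXn⟩

theorem UU.mono {D D' : Finset V} (h : UU W f D) (h' : D' ⊆ D) (hn : D'.Nonempty) :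
    UU W f D' :=
  ⟨hn, fun X hX hXn => h.2 X (hX.trans h') hXn⟩

theorem Red.claim1 (h : Red W f r) {X : Finset V} (hX : X ⊆ W) (h1 : f X = 1) :
    DD f X ∨ UU W f (W \ X) := by
  have hXe : X ≠ ∅ := by rintro rfl; rw [h.emp] at h1; norm_num at h1
  have hXW : X ≠ W := by rintro rfl; rw [h.top] at h1; norm_num at h1
  by_contra hcon
  rw [not_or] at hcon
  obtain ⟨hc1, hc2⟩ := hcon
  have hn : X.Nonempty := Finset.nonempty_iff_ne_empty.mpr hXe
  have hn2 : (W \ X).Nonempty := by
    rw [Finset.nonempty_iff_ne_empty]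
    intro he
    exact hXW (Finset.Subset.antisymm hX (Finset.sdiff_eq_empty_iff_subset.mp he))
  have hc1' : ∃ X', X' ⊆ X ∧ X'.Nonempty ∧ f X' ≠ 1 := by
    by_contra hh
    push Not at hh
    exact hc1 ⟨hn, hh⟩
  have hc2' : ∃ Z, Z ⊆ W \ X ∧ Z.Nonempty ∧ f (W \ Z) ≠ 1 := by
    by_contra hh
    push Not at hh
    exact hc2 ⟨hn2, hh⟩
  obtain ⟨X', hX', hX'n, hX'1⟩ := hc1'
  obtain ⟨Z, hZ, hZn, hZ1⟩ := hc2'
  have hX'W : X' ≠ W := by
    rintro rfl
    exact hXW (Finset.Subset.antisymm hX hX')
  have a1 : f X' = 2 := by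
    have := h.pos X' (hX'.trans hX) (Finset.nonempty_iff_ne_empty.mp hX'n) hX'W
    have := h.le2 X' (hX'.trans hX)
    omega
  have hXZ : X ⊆ W \ Z := by
    intro i hi
    refine Finset.mem_sdiff.mpr ⟨hX hi, fun hiZ => ?_⟩
    exact (Finset.mem_sdiff.mp (hZ hiZ)).2 hi
  have a2 : f (W \ Z) = 2 := by
    have b1 : W \ Z ≠ ∅ := by
      intro he
      rw [he] at hXZ
      exact hXe (Finset.subset_empty.mp hXZ)
    have b2 : W \ Z ≠ W := by
      intro he
      obtain ⟨z, hz⟩ := hZn
      have : z ∈ W \ Z := by rw [he]; exact (Finset.mem_sdiff.mp (hZ hz)).1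
      exact (Finset.mem_sdiff.mp this).2 hz
    have := h.pos (W \ Z) Finset.sdiff_subset b1 b2
    have := h.le2 (W \ Z) Finset.sdiff_subset
    omega
  have hY : X' ∪ ((W \ Z) \ X) ⊆ W :=
    Finset.union_subset (hX'.trans hX) (Finset.sdiff_subset.trans Finset.sdiff_subset)
  have e1 : X ∩ (X' ∪ ((W \ Z) \ X)) = X' := by
    ext i
    simp only [Finset.mem_inter, Finset.mem_union, Finset.mem_sdiff]
    have := @hX' i
    tauto
  have e2 : X ∪ (X' ∪ ((W \ Z) \ X)) = W \ Z := by
    ext i
    simp only [Finset.mem_union, Finset.mem_sdiff]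
    have := @hX' i
    have := @hXZ i
    simp only [Finset.mem_sdiff] at this
    tauto
  have hs := h.sub X (X' ∪ ((W \ Z) \ X)) hX hY
  rw [e1, e2, a1, a2, h1] at hs
  have := h.le2 _ hY
  omega

/-- the vertex of type one -/
theorem Red.type1 (h : Red W f r) {D U : Finset V} (hD : DD f D) (hU : UU W f U)
    (hDW : D ⊆ W) (hUW : U ⊆ W) (hdis : Disjoint D U) (hc : (W \ (D ∪ U)).card ≤ 1) :
    Good W f := by
  obtain ⟨a, ha⟩ := hD.1
  obtain ⟨d, hd⟩ := hU.1
  have haU : a ∉ U := fun h' => (Finset.disjoint_left.mp hdis) ha h'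
  have hdD : d ∉ D := fun h' => (Finset.disjoint_left.mp hdis) h' hd
  have had : a ≠ d := fun e => haU (e ▸ hd)
  have key : ∀ X : Finset V,
      ∑ i ∈ X, ((if i = a then (1:ℤ) else 0) - (if i = d then 1 else 0)) =
      (if a ∈ X then 1 else 0) - (if d ∈ X then 1 else 0) := by
    intro X
    rw [Finset.sum_sub_distrib, Finset.sum_ite_eq', Finset.sum_ite_eq']
  refine ⟨fun i => (if i = a then (1:ℤ) else 0) - (if i = d then 1 else 0), ?_, ?_, ?_⟩
  · rw [key, if_pos (hDW ha), if_pos (hUW hd)]; rfl
  · intro X hX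
    rw [key]
    have h0 := h.nonneg hX
    by_cases h1 : a ∈ X <;> by_cases h2 : d ∈ X
    · rw [if_pos h1, if_pos h2]; constructor <;> linarith
    · rw [if_pos h1, if_neg h2]
      have := h.pos X hX (fun e => by rw [e] at h1; simp at h1)
        (fun e => h2 (by rw [e]; exact hUW hd))
      constructor <;> linarith
    · rw [if_neg h1, if_pos h2]
      have := h.pos X hX (fun e => by rw [e] at h2; simp at h2)
        (fun e => h1 (by rw [e]; exact hDW ha))
      constructor <;> linarith
    · rw [if_neg h1, if_neg h2]; constructor <;> linarith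
  · intro i hi
    by_cases hia : i = a
    · subst hia
      refine ⟨∅, by simp, by simp, ?_, ?_⟩
      · rw [key, h.emp]; simp
      · rw [key, hD.2 (insert i ∅) (by simpa using ha) (by simp)]
        simp [had.symm, had]
    by_cases hid : i = d
    · subst hid
      refine ⟨W \ {i}, Finset.sdiff_subset, by simp, ?_, ?_⟩
      · rw [key, hU.2 {i} (by simpa using hd) (by simp)]
        simp [hDW ha, had]
      · have e : insert i (W \ {i}) = W := by
          ext j; simp only [Finset.mem_insert, Finset.mem_sdiff, Finset.mem_singleton]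
          constructor
          · rintro (h' | h')
            · rw [h']; exact hi
            · exact h'.1
          · intro h'; by_cases hj : j = i
            · exact Or.inl hj
            · exact Or.inr ⟨h', hj⟩
        rw [key, e, h.top]
        simp [hDW ha, hi]
    by_cases hiD : i ∈ D
    · refine ⟨{a}, by simpa using hDW ha, by simpa using hia, ?_, ?_⟩
      · rw [key, hD.2 {a} (by simpa using ha) (by simp)]
        simp [had.symm]
      · rw [key, hD.2 (insert i {a}) (by
          intro j hj
          simp only [Finset.mem_insert, Finset.mem_singleton] at hj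
          rcases hj with h' | h' <;> rw [h'] <;> assumption) (by simp)]
        have : ¬ d = i := fun e => hid e.symm
        simp [had.symm, this]
    by_cases hiU : i ∈ U
    · have hsubU : ({i, d} : Finset V) ⊆ U := by
        intro j hj
        simp only [Finset.mem_insert, Finset.mem_singleton] at hj
        rcases hj with h' | h' <;> rw [h'] <;> assumption
      refine ⟨W \ {i, d}, Finset.sdiff_subset, by simp, ?_, ?_⟩
      · rw [key, hU.2 {i, d} hsubU (by simp)]
        have : ¬ a = i := fun e => hia e.symm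
        simp [hDW ha, had, this]
      · have e : insert i (W \ {i, d}) = W \ {d} := by
          ext j; simp only [Finset.mem_insert, Finset.mem_sdiff, Finset.mem_singleton]
          constructor
          · rintro (h' | h')
            · rw [h']; exact ⟨hi, hid⟩
            · exact ⟨h'.1, fun e => h'.2 (Or.inr e)⟩
          · intro h'; by_cases hj : j = i
            · exact Or.inl hj
            · exact Or.inr ⟨h'.1, fun e => e.elim hj h'.2⟩
        rw [key, e, hU.2 {d} (by simpa using hd) (by simp)]
        simp [hDW ha, had]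
    · have e : insert i D = W \ U := by
        ext j; simp only [Finset.mem_insert, Finset.mem_sdiff]
        constructor
        · rintro (h' | h')
          · rw [h']; exact ⟨hi, hiU⟩
          · exact ⟨hDW h', fun e => (Finset.disjoint_left.mp hdis) h' e⟩
        · intro h'; by_cases hj : j ∈ D
          · exact Or.inr hj
          · left
            have m1 : j ∈ W \ (D ∪ U) := by
              simp only [Finset.mem_sdiff, Finset.mem_union, not_or]
              exact ⟨h'.1, hj, h'.2⟩
            have m2 : i ∈ W \ (D ∪ U) := by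
              simp only [Finset.mem_sdiff, Finset.mem_union, not_or]
              exact ⟨hi, hiD, hiU⟩
            exact Finset.card_le_one.mp hc j m1 i m2
      refine ⟨D, hDW, hiD, ?_, ?_⟩
      · rw [key, hD.2 D (Finset.Subset.refl D) hD.1]
        simp [ha, hdD]
      · rw [key, e, hU.2 U (Finset.Subset.refl U) hU.1]
        simp [hDW ha, haU, hd]

end Pool.Agent.W600.Opp
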