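import Pool.Agent.W600.Opp.Comb

namespace Pool.Agent.W600.Opp

open Finset

variable {V : Type*} [DecidableEq V] {W : Finset V} {f : Finset V → ℤ} {r : V}

/-- the pair `{a, b}` has value two and so has its complement -/
def GG (W : Finset V) (f : Finset V → ℤ) (a b : V) : Prop :=
  f {a, b} = 2 ∧ f (W \ {a, b}) = 2

theorem GG.symm {a b : V} (h : GG W f a b) : GG W f b a := by
  unfold GG at h ⊢
  rwa [Finset.pair_comm b a]

/-- the vertex of type two -/
theorem Red.type2 (h : Red W f r) {a b c d : V} (ha : a ∈ W) (hb : b ∈ W) (hc : c ∈ W)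
    (hd : d ∈ W) (hab : a ≠ b) (hac : a ≠ c) (had : a ≠ d) (hbc : b ≠ c) (hbd : b ≠ d)
    (hcd : c ≠ d) (h1 : GG W f a b) (h2 : GG W f c d) : Good W f := by
  have key : ∀ X : Finset V,
      ∑ i ∈ X, ((if i = a then (1:ℤ) else 0) + (if i = b then (1:ℤ) else 0)
        - (if i = c then 1 else 0) - (if i = d then 1 else 0)) =
      (if a ∈ X then 1 else 0) + (if b ∈ X then 1 else 0) - (if c ∈ X then 1 else 0)
        - (if d ∈ X then 1 else 0) := by
    intro X
    rw [Finset.sum_sub_distrib, Finset.sum_sub_distrib, Finset.sum_add_distrib,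
      Finset.sum_ite_eq', Finset.sum_ite_eq', Finset.sum_ite_eq', Finset.sum_ite_eq']
  have two : ∀ p q s t : V, GG W f p q → GG W f s t → p ∈ W → q ∈ W → s ∈ W → t ∈ W →
      ∀ X, X ⊆ W → p ∈ X → q ∈ X → s ∉ X → t ∉ X → f X = 2 := by
    intro p q s t hpq hst hp hq hs ht X hX hpX hqX hsX htX
    have u1 := h.pos X hX (fun e => by rw [e] at hpX; simp at hpX)
      (fun e => hsX (by rw [e]; exact hs))
    have u2 := h.le2 X hX
    by_contra hne
    have u3 : f X = 1 := by omega
    rcases h.claim1 hX u3 with h' | h'
    · have := h'.2 {p, q} (by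
        intro j hj
        simp only [Finset.mem_insert, Finset.mem_singleton] at hj
        rcases hj with h' | h' <;> rw [h'] <;> assumption) (by simp)
      rw [hpq.1] at this; norm_num at this
    · have := h'.2 {s, t} (by
        intro j hj
        simp only [Finset.mem_insert, Finset.mem_singleton] at hj
        rcases hj with h' | h' <;> rw [h', Finset.mem_sdiff]
        · exact ⟨hs, hsX⟩
        · exact ⟨ht, htX⟩) (by simp)
      rw [hst.2] at this; norm_num at this
  have insd : ∀ i ∈ W, insert i (W \ {i}) = W := by
    intro i hi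
    ext j; simp only [Finset.mem_insert, Finset.mem_sdiff, Finset.mem_singleton]
    constructor
    · rintro (h' | h')
      · rw [h']; exact hi
      · exact h'.1
    · intro h'; by_cases hj : j = i
      · exact Or.inl hj
      · exact Or.inr ⟨h', hj⟩
  have insd2 : ∀ i ∈ W, ∀ j, i ≠ j → insert i (W \ {i, j}) = W \ {j} := by
    intro i hi d hid
    ext j; simp only [Finset.mem_insert, Finset.mem_sdiff, Finset.mem_singleton]
    constructor
    · rintro (h' | h')
      · rw [h']; exact ⟨hi, hid⟩
      · exact ⟨h'.1, fun e => h'.2 (Or.inr e)⟩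
    · intro h'; by_cases hj : j = i
      · exact Or.inl hj
      · exact Or.inr ⟨h'.1, fun e => e.elim hj h'.2⟩
  have sing : ∀ i ∈ W, i ≠ r → f {i} = 1 := by
    intro i hi hir
    have u1 := (h.one i hi hir).1
    have u2 := h.pos {i} (by simpa using hi) (by simp) (by
      intro e
      have m1 : a ∈ ({i} : Finset V) := by rw [e]; exact ha
      have m2 : b ∈ ({i} : Finset V) := by rw [e]; exact hb
      simp only [Finset.mem_singleton] at m1 m2
      exact hab (m1.trans m2.symm))
    omega
  have cosing : ∀ i ∈ W, i ≠ r → f (W \ {i}) = 1 := by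
    intro i hi hir
    have u1 := (h.one i hi hir).2
    have u2 := h.pos (W \ {i}) Finset.sdiff_subset (by
      intro e
      have m1 : a ∈ ({i} : Finset V) := Finset.sdiff_eq_empty_iff_subset.mp e ha
      have m2 : b ∈ ({i} : Finset V) := Finset.sdiff_eq_empty_iff_subset.mp e hb
      simp only [Finset.mem_singleton] at m1 m2
      exact hab (m1.trans m2.symm)) (by
      intro e
      have m1 : i ∈ W \ {i} := by rw [e]; exact hi
      simp at m1)
    omega
  refine ⟨fun i => (if i = a then (1:ℤ) else 0) + (if i = b then (1:ℤ) else 0)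
        - (if i = c then 1 else 0) - (if i = d then 1 else 0), ?_, ?_, ?_⟩
  · rw [key, if_pos ha, if_pos hb, if_pos hc, if_pos hd]; rfl
  · intro X hX
    rw [key]
    have h0 := h.nonneg hX
    have t1 := two a b c d h1 h2 ha hb hc hd X hX
    have t2 := two c d a b h2 h1 hc hd ha hb X hX
    have p1 : X ≠ ∅ → X ≠ W → 1 ≤ f X := h.pos X hX
    have pe : ∀ x, x ∈ X → X ≠ ∅ := fun x hx e => by rw [e] at hx; simp at hx
    have pw : ∀ x, x ∈ W → x ∉ X → X ≠ W := fun x hx hx' e => hx' (by rw [e]; exact hx)
    by_cases m1 : a ∈ X <;> by_cases m2 : b ∈ X <;> by_cases m3 : c ∈ X <;>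
      by_cases m4 : d ∈ X <;> simp only [m1, m2, m3, m4, if_true, if_false] <;>
      first
        | (constructor <;> linarith)
        | (have := t1 m1 m2 m3 m4; constructor <;> linarith)
        | (have := t2 m3 m4 m1 m2; constructor <;> linarith)
        | (have := p1 (pe a m1) (pw c hc m3); constructor <;> linarith)
        | (have := p1 (pe a m1) (pw d hd m4); constructor <;> linarith)
        | (have := p1 (pe b m2) (pw c hc m3); constructor <;> linarith)
        | (have := p1 (pe b m2) (pw d hd m4); constructor <;> linarith)
        | (have := p1 (pe c m3) (pw a ha m1); constructor <;> linarith)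
        | (have := p1 (pe c m3) (pw b hb m2); constructor <;> linarith)
        | (have := p1 (pe d m4) (pw a ha m1); constructor <;> linarith)
        | (have := p1 (pe d m4) (pw b hb m2); constructor <;> linarith)
  · intro i hi
    by_cases hia : i = a
    · subst hia
      by_cases hir : i = r
      · have hbr : b ≠ r := fun e => hab (hir.trans e.symm)
        refine ⟨{b}, by simpa using hb, by simpa using hab, ?_, ?_⟩
        · rw [key, sing b hb hbr]
          simp [hab, hbc.symm, hbd.symm]
        · have : (insert i {b} : Finset V) = {i, b} := rfl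
          rw [key, this, h1.1]
          simp [hac.symm, hbc.symm, had.symm, hbd.symm]
      · refine ⟨∅, by simp, by simp, ?_, ?_⟩
        · rw [key, h.emp]; simp
        · rw [key]
          have : (insert i ∅ : Finset V) = {i} := rfl
          rw [this, sing i hi hir]
          simp [hab.symm, hac.symm, had.symm]
    by_cases hib : i = b
    · subst hib
      by_cases hir : i = r
      · have har : a ≠ r := fun e => hab (e.trans hir.symm)
        refine ⟨{a}, by simpa using ha, by simpa using hab.symm, ?_, ?_⟩
        · rw [key, sing a ha har]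
          simp [hab.symm, hac.symm, had.symm]
        · have : (insert i {a} : Finset V) = {a, i} := Finset.pair_comm i a
          rw [key, this, h1.1]
          simp [hac.symm, hbc.symm, had.symm, hbd.symm]
      · refine ⟨∅, by simp, by simp, ?_, ?_⟩
        · rw [key, h.emp]; simp
        · rw [key]
          have : (insert i ∅ : Finset V) = {i} := rfl
          rw [this, sing i hi hir]
          simp [hab, hbc.symm, hbd.symm]
    by_cases hic : i = c
    · subst hic
      by_cases hir : i = r
      · have hdr : d ≠ r := fun e => hcd (hir.trans e.symm)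
        refine ⟨W \ {i, d}, Finset.sdiff_subset, by simp, ?_, ?_⟩
        · rw [key, h2.2]
          simp [ha, hb, hac, had, hbc, hbd]
        · rw [key, insd2 i hi d hcd, cosing d hd hdr]
          simp [ha, hb, hi, hcd, had, hbd]
      · refine ⟨W \ {i}, Finset.sdiff_subset, by simp, ?_, ?_⟩
        · rw [key, cosing i hi hir]
          simp [ha, hb, hd, hcd.symm, hac, hbc]
        · rw [key, insd i hi, h.top]
          simp [ha, hb, hi, hd]
    by_cases hid : i = d
    · subst hid
      by_cases hir : i = r
      · have hcr : c ≠ r := fun e => hcd (e.trans hir.symm)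
        refine ⟨W \ {i, c}, Finset.sdiff_subset, by simp, ?_, ?_⟩
        · rw [key, Finset.pair_comm i c, h2.2]
          simp [ha, hb, hac, had, hbc, hbd]
        · rw [key, insd2 i hi c hcd.symm, cosing c hc hcr]
          simp [ha, hb, hi, hcd.symm, hac, hbc]
      · refine ⟨W \ {i}, Finset.sdiff_subset, by simp, ?_, ?_⟩
        · rw [key, cosing i hi hir]
          simp [ha, hb, hc, hcd, had, hbd]
        · rw [key, insd i hi, h.top]
          simp [ha, hb, hi, hc]
    · have hsub : (insert i {a, b} : Finset V) ⊆ W := by
        intro j hj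
        simp only [Finset.mem_insert, Finset.mem_singleton] at hj
        rcases hj with h' | h' | h' <;> rw [h'] <;> assumption
      refine ⟨{a, b}, ?_, ?_, ?_, ?_⟩
      · intro j hj; exact hsub (Finset.mem_insert_of_mem hj)
      · simp [hia, hib]
      · rw [key, h1.1]
        simp [hac.symm, hbc.symm, had.symm, hbd.symm]
      · rw [key, two a b c d h1 h2 ha hb hc hd _ hsub (by simp) (by simp)
          (by simp [hac.symm, hbc.symm, Ne.symm hic]) (by simp [had.symm, hbd.symm, Ne.symm hid])]
        simp [hac.symm, hbc.symm, had.symm, hbd.symm, Ne.symm hic, Ne.symm hid]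

end Pool.Agent.W600.Opp
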