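import Pool.Agent.W600.Opp.Comb2

namespace Pool.Agent.W600.Opp

open Finset

variable {V : Type*} [DecidableEq V] {W : Finset V} {f : Finset V → ℤ} {r : V}

theorem Red.nbrs (h : Red W f r) (hng : ¬ Good W f) {a : V} (ha : a ∈ W)
    (ha1 : f {a} = 1) (ha2 : f (W \ {a}) = 1) :
    ∃ b b', b ≠ b' ∧ b ∈ W ∧ b' ∈ W ∧ b ≠ a ∧ b' ≠ a ∧ GG W f a b ∧ GG W f a b' := by
  classical
  have hDa : DD f {a} := ⟨by simp, fun X hX hXn => by
    rw [(Finset.Nonempty.subset_singleton_iff hXn).mp hX]; exact ha1⟩
  have hUa : UU W f {a} := ⟨by simp, fun X hX hXn => by
    rw [(Finset.Nonempty.subset_singleton_iff hXn).mp hX]; exact ha2⟩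
  obtain ⟨D, hDm, hDmax⟩ := Finset.exists_max_image
    (W.powerset.filter (fun D => a ∈ D ∧ DD f D)) Finset.card
    ⟨{a}, by simp [ha, hDa]⟩
  obtain ⟨U, hUm, hUmax⟩ := Finset.exists_max_image
    (W.powerset.filter (fun U => a ∈ U ∧ UU W f U)) Finset.card
    ⟨{a}, by simp [ha, hUa]⟩
  simp only [Finset.mem_filter, Finset.mem_powerset] at hDm hUm hDmax hUmax
  obtain ⟨hDW, haD, hD⟩ := hDm
  obtain ⟨hUW, haU, hU⟩ := hUm
  have hcard : 2 ≤ (W \ (D ∪ U)).card := by
    by_contra hlt
    have hle : (W \ (D ∪ U)).card ≤ 1 := by omega
    apply hng
    by_cases c1 : (D \ {a}).Nonempty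
    · have e : (D \ {a}) ∪ (insert a (U \ D)) = D ∪ U := by
        ext j; simp only [Finset.mem_union, Finset.mem_sdiff, Finset.mem_singleton,
          Finset.mem_insert]
        by_cases hj : j = a
        · subst hj; tauto
        · tauto
      refine h.type1 (hD.mono Finset.sdiff_subset c1)
        (U := insert a (U \ D)) (hU.mono ?_ (by simp)) (Finset.sdiff_subset.trans hDW) ?_ ?_ ?_
      · exact Finset.insert_subset haU Finset.sdiff_subset
      · exact Finset.insert_subset ha (Finset.sdiff_subset.trans hUW)
      · rw [Finset.disjoint_left]
        intro j hj hj'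
        simp only [Finset.mem_union, Finset.mem_sdiff, Finset.mem_singleton,
          Finset.mem_insert] at hj hj'
        tauto
      · rw [e]; exact hle
    · have hDe : D = {a} := by
        rw [Finset.not_nonempty_iff_eq_empty, Finset.sdiff_eq_empty_iff_subset] at c1
        exact Finset.Subset.antisymm c1 (by simpa using haD)
      by_cases c2 : (U \ {a}).Nonempty
      · have e : ({a} : Finset V) ∪ (U \ {a}) = D ∪ U := by
          rw [hDe]
          ext j; simp only [Finset.mem_union, Finset.mem_sdiff, Finset.mem_singleton]
          by_cases hj : j = a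
          · subst hj; tauto
          · tauto
        refine h.type1 hDa (hU.mono Finset.sdiff_subset c2) (by simpa using ha)
          (Finset.sdiff_subset.trans hUW) ?_ ?_
        · rw [Finset.disjoint_left]
          intro j hj hj'
          simp only [Finset.mem_sdiff, Finset.mem_singleton] at hj hj'
          tauto
        · rw [e]; exact hle
      · have hUe : U = {a} := by
          rw [Finset.not_nonempty_iff_eq_empty, Finset.sdiff_eq_empty_iff_subset] at c2
          exact Finset.Subset.antisymm c2 (by simpa using haU)
        rw [hDe, hUe, Finset.union_idempotent] at hle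
        have hne : (W \ {a}).Nonempty := by
          rw [Finset.nonempty_iff_ne_empty]
          intro e
          rw [e, h.emp] at ha2; norm_num at ha2
        obtain ⟨x, hx⟩ := hne
        have hx' := Finset.mem_sdiff.mp hx
        have hxa : x ≠ a := by simpa using hx'.2
        have hWx : W \ {x} = {a} := by
          ext j; simp only [Finset.mem_sdiff, Finset.mem_singleton]
          constructor
          · rintro ⟨h1, h2⟩
            by_contra hja
            exact h2 (Finset.card_le_one.mp hle j (by simp [h1, hja]) x hx)
          · rintro rfl
            exact ⟨ha, fun e => hxa e.symm⟩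
        have hUx : UU W f {x} := ⟨by simp, fun X hX hXn => by
          rw [(Finset.Nonempty.subset_singleton_iff hXn).mp hX, hWx]; exact ha1⟩
        refine h.type1 hDa hUx (by simpa using ha) (by simpa using hx'.1) ?_ ?_
        · rw [Finset.disjoint_left]
          intro j hj hj'
          simp only [Finset.mem_singleton] at hj hj'
          exact hxa (hj'.symm.trans hj)
        · refine le_trans (Finset.card_le_card ?_) hle
          intro j hj
          simp only [Finset.mem_sdiff, Finset.mem_union, Finset.mem_singleton, not_or] at hj ⊢
          exact ⟨hj.1, hj.2.1⟩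
  obtain ⟨b, hb, b', hb', hbb⟩ := Finset.one_lt_card.mp (show 1 < (W \ (D ∪ U)).card by omega)
  have main : ∀ x y, x ≠ y → x ∈ W \ (D ∪ U) → y ∈ W \ (D ∪ U) → GG W f a x := by
    intro x y hxy hx hy
    simp only [Finset.mem_sdiff, Finset.mem_union, not_or] at hx hy
    obtain ⟨hxW, hxD, hxU⟩ := hx
    obtain ⟨hyW, hyD, hyU⟩ := hy
    have hxa : x ≠ a := fun e => hxD (e ▸ haD)
    have hya : y ≠ a := fun e => hyD (e ▸ haD)
    have hpW : ({a, x} : Finset V) ⊆ W := by
      intro j hj
      simp only [Finset.mem_insert, Finset.mem_singleton] at hj
      rcases hj with h' | h' <;> rw [h'] <;> assumption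
    constructor
    · by_contra hne
      have u1 := h.pos {a, x} hpW (by simp) (by
        intro e
        have : y ∈ ({a, x} : Finset V) := by rw [e]; exact hyW
        simp only [Finset.mem_insert, Finset.mem_singleton] at this
        rcases this with h' | h'
        · exact hya h'
        · exact hxy h'.symm)
      have u2 := h.le2 {a, x} hpW
      have u3 : f {a, x} = 1 := by omega
      have hs := h.sub D {a, x} hDW hpW
      have e1 : D ∩ {a, x} = {a} := by
        ext j; simp only [Finset.mem_inter, Finset.mem_insert, Finset.mem_singleton]
        constructor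
        · rintro ⟨h1, h2 | h2⟩
          · exact h2
          · exact absurd (h2 ▸ h1) hxD
        · rintro rfl; exact ⟨haD, Or.inl rfl⟩
      have e2 : D ∪ {a, x} = insert x D := by
        ext j; simp only [Finset.mem_union, Finset.mem_insert, Finset.mem_singleton]
        constructor
        · rintro (h1 | h1 | h1)
          · exact Or.inr h1
          · right; rw [h1]; exact haD
          · exact Or.inl h1
        · tauto
      rw [e1, e2, ha1, u3, hD.2 D (Finset.Subset.refl D) hD.1] at hs
      have hiW : insert x D ⊆ W := Finset.insert_subset hxW hDW
      have v1 := h.pos (insert x D) hiW (by simp) (by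
        intro e
        have : y ∈ insert x D := by rw [e]; exact hyW
        simp only [Finset.mem_insert] at this
        rcases this with h' | h'
        · exact hxy h'.symm
        · exact hyD h')
      have v2 : f (insert x D) = 1 := by omega
      rcases h.claim1 hiW v2 with h' | h'
      · have := hDmax (insert x D) ⟨hiW, Finset.mem_insert_of_mem haD, h'⟩
        rw [Finset.card_insert_of_notMem hxD] at this
        omega
      · apply hng
        refine h.type1 hD h' hDW Finset.sdiff_subset ?_ ?_
        · rw [Finset.disjoint_left]
          intro j hj hj'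
          simp only [Finset.mem_sdiff, Finset.mem_insert, not_or] at hj'
          exact hj'.2.2 hj
        · rw [Finset.card_le_one]
          intro i hi j hj
          simp only [Finset.mem_sdiff, Finset.mem_union, Finset.mem_insert, not_or, not_and,
            not_not] at hi hj
          have hi' : i = x := by
            by_contra hix
            exact hi.2.1 (hi.2.2 hi.1 hix)
          have hj' : j = x := by
            by_contra hix
            exact hj.2.1 (hj.2.2 hj.1 hix)
          rw [hi', hj']
    · by_contra hne
      have u1 := h.pos (W \ {a, x}) Finset.sdiff_subset (by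
        intro e
        have := Finset.sdiff_eq_empty_iff_subset.mp e hyW
        simp only [Finset.mem_insert, Finset.mem_singleton] at this
        rcases this with h' | h'
        · exact hya h'
        · exact hxy h'.symm) (by
        intro e
        have : a ∈ W \ {a, x} := by rw [e]; exact ha
        simp at this)
      have u2 := h.le2 (W \ {a, x}) Finset.sdiff_subset
      have u3 : f (W \ {a, x}) = 1 := by omega
      have hs := h.sub (W \ U) (W \ {a, x}) Finset.sdiff_subset Finset.sdiff_subset
      have e1 : (W \ U) ∩ (W \ {a, x}) = W \ insert x U := by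
        ext j; simp only [Finset.mem_inter, Finset.mem_sdiff, Finset.mem_insert,
          Finset.mem_singleton, not_or]
        constructor
        · rintro ⟨⟨h1, h2⟩, h3, h4, h5⟩; exact ⟨h1, h5, h2⟩
        · rintro ⟨h1, h2, h3⟩
          exact ⟨⟨h1, h3⟩, h1, fun e => h3 (e ▸ haU), h2⟩
      have e2 : (W \ U) ∪ (W \ {a, x}) = W \ {a} := by
        ext j; simp only [Finset.mem_union, Finset.mem_sdiff, Finset.mem_insert,
          Finset.mem_singleton, not_or]
        constructor
        · rintro (⟨h1, h2⟩ | ⟨h1, h2, h3⟩)
          · exact ⟨h1, fun e => h2 (e ▸ haU)⟩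
          · exact ⟨h1, h2⟩
        · rintro ⟨h1, h2⟩
          by_cases hj : j = x
          · left; exact ⟨h1, fun e => hxU (hj ▸ e)⟩
          · right; exact ⟨h1, h2, hj⟩
      rw [e1, e2, ha2, u3, hU.2 U (Finset.Subset.refl U) hU.1] at hs
      have hiW : W \ insert x U ⊆ W := Finset.sdiff_subset
      have v1 := h.pos (W \ insert x U) hiW (by
        intro e
        have := Finset.sdiff_eq_empty_iff_subset.mp e hyW
        simp only [Finset.mem_insert] at this
        rcases this with h' | h'
        · exact hxy h'.symm
        · exact hyU h') (by
        intro e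
        have : x ∈ W \ insert x U := by rw [e]; exact hxW
        simp at this)
      have v2 : f (W \ insert x U) = 1 := by omega
      have hii : insert x U ⊆ W := Finset.insert_subset hxW hUW
      rcases h.claim1 hiW v2 with h' | h'
      · apply hng
        refine h.type1 h' hU hiW hUW ?_ ?_
        · rw [Finset.disjoint_left]
          intro j hj hj'
          simp only [Finset.mem_sdiff, Finset.mem_insert, not_or] at hj
          exact hj.2.2 hj'
        · rw [Finset.card_le_one]
          intro i hi j hj
          simp only [Finset.mem_sdiff, Finset.mem_union, Finset.mem_insert, not_or, not_and,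
            not_not] at hi hj
          have hi' : i = x := by
            by_contra hix
            exact hi.2.2 (hi.2.1 hi.1 hix)
          have hj' : j = x := by
            by_contra hix
            exact hj.2.2 (hj.2.1 hj.1 hix)
          rw [hi', hj']
      · rw [Finset.sdiff_sdiff_eq_self hii] at h'
        have := hUmax (insert x U) ⟨hii, Finset.mem_insert_of_mem haU, h'⟩
        rw [Finset.card_insert_of_notMem hxU] at this
        omega
  have m1 := main b b' hbb hb hb'
  have m2 := main b' b hbb.symm hb' hb
  simp only [Finset.mem_sdiff, Finset.mem_union, not_or] at hb hb'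
  exact ⟨b, b', hbb, hb.1, hb'.1, fun e => hb.2.1 (e ▸ haD), fun e => hb'.2.1 (e ▸ haD), m1, m2⟩

end Pool.Agent.W600.Opp
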