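import Mathlib

namespace Pool.Agent.W600.Opp

open Finset

variable {V : Type*} [DecidableEq V]

/-- Submodularity on the subsets of `W`. -/
def Sub (W : Finset V) (f : Finset V → ℤ) : Prop :=
  ∀ X Y : Finset V, X ⊆ W → Y ⊆ W → f (X ∩ Y) + f (X ∪ Y) ≤ f X + f Y

/-- The conclusion: an integer point `v` of the base polyhedron with `-v` in it as well,
which is a vertex (every element is separated by two tight sets). -/
def Good (W : Finset V) (f : Finset V → ℤ) : Prop :=
  ∃ v : V → ℤ, ∑ i ∈ W, v i = 0 ∧
    (∀ X, X ⊆ W → ∑ i ∈ X, v i ≤ f X ∧ - ∑ i ∈ X, v i ≤ f X) ∧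
    ∀ i ∈ W, ∃ T, T ⊆ W ∧ i ∉ T ∧ ∑ j ∈ T, v j = f T ∧
      ∑ j ∈ insert i T, v j = f (insert i T)

/-- gluing along a zero set -/
theorem good_glue {W E : Finset V} {f : Finset V → ℤ} (hE : E ⊆ W) (hf : Sub W f)
    (hfE : f E = 0) (h1 : Good E f) (h2 : Good (W \ E) (fun X => f (E ∪ X))) : Good W f := by
  obtain ⟨v1, h10, h1a, h1b⟩ := h1
  obtain ⟨v2, h20, h2a, h2b⟩ := h2
  have key : ∀ X : Finset V, X ⊆ W →
      ∑ i ∈ X, (if i ∈ E then v1 i else v2 i) = ∑ i ∈ X ∩ E, v1 i + ∑ i ∈ X \ E, v2 i := by
    intro X _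
    rw [← Finset.sum_inter_add_sum_sdiff X E]
    congr 1
    · apply Finset.sum_congr rfl
      intro i hi
      rw [if_pos (Finset.mem_inter.mp hi).2]
    · apply Finset.sum_congr rfl
      intro i hi
      rw [if_neg (Finset.mem_sdiff.mp hi).2]
  refine ⟨fun i => if i ∈ E then v1 i else v2 i, ?_, ?_, ?_⟩
  · rw [key W (Finset.Subset.refl W), Finset.inter_eq_right.mpr hE, h10, h20]; rfl
  · intro X hX
    rw [key X hX]
    have hs := hf X E hX hE
    have ha := h1a (X ∩ E) Finset.inter_subset_right
    have hb := h2a (X \ E) (Finset.sdiff_subset_sdiff hX (Finset.Subset.refl E))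
    have he : E ∪ (X \ E) = X ∪ E := by
      ext i; simp only [Finset.mem_union, Finset.mem_sdiff]; tauto
    simp only [he] at hb
    constructor
    · linarith [ha.1, hb.1]
    · linarith [ha.2, hb.2]
  · intro i hi
    by_cases hiE : i ∈ E
    · obtain ⟨T, hT, hiT, ht1, ht2⟩ := h1b i hiE
      refine ⟨T, hT.trans hE, hiT, ?_, ?_⟩
      · rw [← ht1]; apply Finset.sum_congr rfl
        intro j hj; exact if_pos (hT hj)
      · rw [← ht2]; apply Finset.sum_congr rfl
        intro j hj
        apply if_pos
        rcases Finset.mem_insert.mp hj with h | h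
        · rw [h]; exact hiE
        · exact hT h
    · obtain ⟨T, hT, hiT, ht1, ht2⟩ := h2b i (Finset.mem_sdiff.mpr ⟨hi, hiE⟩)
      have hTW : T ⊆ W := hT.trans Finset.sdiff_subset
      have hTE : ∀ j ∈ T, j ∉ E := fun j hj => (Finset.mem_sdiff.mp (hT hj)).2
      have e1 : (E ∪ T) ∩ E = E := by
        ext j; simp only [Finset.mem_inter, Finset.mem_union]; tauto
      have e2 : (E ∪ T) \ E = T := by
        ext j; simp only [Finset.mem_sdiff, Finset.mem_union]
        constructor
        · rintro ⟨h | h, h'⟩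
          · exact absurd h h'
          · exact h
        · intro h; exact ⟨Or.inr h, hTE j h⟩
      have e3 : (insert i (E ∪ T)) ∩ E = E := by
        ext j; simp only [Finset.mem_inter, Finset.mem_union, Finset.mem_insert]; tauto
      have e4 : (insert i (E ∪ T)) \ E = insert i T := by
        ext j; simp only [Finset.mem_sdiff, Finset.mem_union, Finset.mem_insert]
        constructor
        · rintro ⟨h | h | h, h'⟩
          · exact Or.inl h
          · exact absurd h h'
          · exact Or.inr h
        · rintro (h | h)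
          · exact ⟨Or.inl h, h ▸ hiE⟩
          · exact ⟨Or.inr (Or.inr h), hTE j h⟩
      refine ⟨E ∪ T, Finset.union_subset hE hTW, ?_, ?_, ?_⟩
      · simp only [Finset.mem_union, not_or]; exact ⟨hiE, hiT⟩
      · rw [key _ (Finset.union_subset hE hTW), e1, e2, h10, ht1]; simp
      · rw [key _ (Finset.insert_subset hi (Finset.union_subset hE hTW)), e3, e4, h10, ht2]
        simp only [zero_add]
        congr 1
        ext j; simp only [Finset.mem_union, Finset.mem_insert]; tauto

end Pool.Agent.W600.Opp
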