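import Pool.Agent.W600.Opp.Lift

namespace Pool.Agent.W600.Opp

open Finset

variable {S : Type*} [Fintype S] [DecidableEq S]

theorem exists_extreme {p b : Finset S → ℤ} (h : Paired p b) (X : Finset (Option S)) :
    ∃ v : Option S → ℤ, (fun i => (v (some i) : ℝ)) ∈ (GQ p b).extremePoints ℝ ∧
      ∑ i, v i = 0 ∧ ∑ i ∈ X, v i = lf p b X := by
  obtain ⟨v, h1, h2, h3, h4⟩ := greedy (lf p b) (lf_empty h) (Finset.subset_univ X) (lf_sub h)
  rw [lf_univ h] at h2
  refine ⟨v, extreme_of_tight v h2 (fun X => h1 X (Finset.subset_univ X)) ?_, h2, h3⟩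
  intro i
  obtain ⟨T, -, t1, t2, t3⟩ := h4 i (Finset.mem_univ i)
  exact ⟨T, t2, t1, t3⟩

theorem main {p b : Finset S → ℤ} (h : Paired p b) (h0 : (0 : S → ℝ) ∈ GQ p b)
    (hv : ∀ v ∈ (GQ p b).extremePoints ℝ, ∀ i, v i = 0 ∨ v i = 1 ∨ v i = -1)
    (h2 : ∀ v ∈ (GQ p b).extremePoints ℝ,
      (univ.filter (fun i => v i = 1)).card ≤ 2 ∧ (univ.filter (fun i => v i = -1)).card ≤ 2) :
    ∃ v ∈ (GQ p b).extremePoints ℝ, -v ∈ GQ p b := by
  classical
  -- sums over sets at vertices
  have hup : ∀ v ∈ (GQ p b).extremePoints ℝ, ∀ A : Finset S, ∑ i ∈ A, v i ≤ 2 := by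
    intro v hve A
    have h1 : ∑ i ∈ A, v i ≤ ∑ i ∈ A, (if v i = 1 then (1:ℝ) else 0) := by
      apply Finset.sum_le_sum
      intro i _
      rcases hv v hve i with e | e | e <;> rw [e] <;> norm_num
    have h3 : ∑ i ∈ A, (if v i = 1 then (1:ℝ) else 0) ≤
        ∑ i, (if v i = 1 then (1:ℝ) else 0) := by
      apply Finset.sum_le_sum_of_subset_of_nonneg (Finset.subset_univ A)
      intro i _ _
      split_ifs <;> norm_num
    rw [Finset.sum_boole] at h1
    rw [Finset.sum_boole, Finset.sum_boole] at h3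
    have h4 : ((univ.filter (fun i => v i = 1)).card : ℝ) ≤ 2 := by
      exact_mod_cast (h2 v hve).1
    linarith
  have hdn : ∀ v ∈ (GQ p b).extremePoints ℝ, ∀ A : Finset S, -2 ≤ ∑ i ∈ A, v i := by
    intro v hve A
    have h1 : ∑ i ∈ A, - v i ≤ ∑ i ∈ A, (if v i = -1 then (1:ℝ) else 0) := by
      apply Finset.sum_le_sum
      intro i _
      rcases hv v hve i with e | e | e <;> rw [e] <;> norm_num
    have h3 : ∑ i ∈ A, (if v i = -1 then (1:ℝ) else 0) ≤
        ∑ i, (if v i = -1 then (1:ℝ) else 0) := by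
      apply Finset.sum_le_sum_of_subset_of_nonneg (Finset.subset_univ A)
      intro i _ _
      split_ifs <;> norm_num
    rw [Finset.sum_boole] at h1
    rw [Finset.sum_boole, Finset.sum_boole] at h3
    have h4 : ((univ.filter (fun i => v i = -1)).card : ℝ) ≤ 2 := by
      exact_mod_cast (h2 v hve).2
    rw [Finset.sum_neg_distrib] at h1
    linarith
  have hle2 : ∀ X : Finset (Option S), lf p b X ≤ 2 := by
    intro X
    obtain ⟨v, hve, hv0, hvX⟩ := exists_extreme h X
    rw [← hvX]
    by_cases hX : none ∈ X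
    · rw [sum_none_mem _ hv0 hX]
      have := hdn _ hve (univ \ tr X)
      have h' : (-2 : ℤ) ≤ ∑ i ∈ univ \ tr X, v (some i) := by exact_mod_cast this
      linarith
    · rw [sum_none_notMem _ hX]
      have := hup _ hve (tr X)
      exact_mod_cast this
  have hnn : ∀ X : Finset (Option S), 0 ≤ lf p b X := by
    intro X
    have := (mem_GQ.mp h0) X
    have e : ∑ i ∈ X, lft (0 : S → ℝ) i = 0 := by
      apply Finset.sum_eq_zero
      intro o _
      cases o with
      | none => simp [lft]
      | some i => simp [lft]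
    rw [e] at this
    exact_mod_cast this
  have hone : ∀ i ∈ (univ : Finset (Option S)), i ≠ none →
      lf p b {i} ≤ 1 ∧ lf p b (univ \ {i}) ≤ 1 := by
    intro i _ hi
    obtain ⟨s, rfl⟩ := Option.ne_none_iff_exists'.mp hi
    constructor
    · obtain ⟨v, hve, hv0, hvX⟩ := exists_extreme h {some s}
      rw [← hvX, Finset.sum_singleton]
      have h1 : ((v (some s) : ℤ) : ℝ) ≤ 1 := by
        rcases hv _ hve s with e | e | e <;> rw [e] <;> norm_num
      exact_mod_cast h1
    · obtain ⟨v, hve, hv0, hvX⟩ := exists_extreme h (univ \ {some s})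
      rw [← hvX]
      have h3 : ∑ i ∈ univ \ {some s}, v i = - v (some s) := by
        have := Finset.sum_sdiff (Finset.subset_univ ({some s} : Finset (Option S))) (f := v)
        rw [hv0, Finset.sum_singleton] at this
        linarith
      rw [h3]
      have h1 : (-1 : ℝ) ≤ ((v (some s) : ℤ) : ℝ) := by
        rcases hv _ hve s with e | e | e <;> rw [e] <;> norm_num
      have h1' : (-1 : ℤ) ≤ v (some s) := by exact_mod_cast h1
      linarith
  obtain ⟨v, hv0, hva, hvb⟩ := good_of_le_two (none : Option S) _ univ (lf p b) rfl (lf_sub h)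
    (lf_empty h) (lf_univ h) (fun X _ => hnn X) (fun X _ => hle2 X) hone
  refine ⟨_, extreme_of_tight v hv0 (fun X => (hva X (Finset.subset_univ X)).1) ?_, ?_⟩
  · intro i
    obtain ⟨T, -, t1, t2, t3⟩ := hvb i (Finset.mem_univ i)
    exact ⟨T, t2, t1, t3⟩
  · rw [mem_GQ]
    intro X
    have e : ∀ o, lft (-(fun i => (v (some i) : ℝ))) o = - (v o : ℝ) := by
      intro o
      cases o with
      | none =>
        rw [Fintype.sum_option] at hv0
        have h' : v none = - ∑ i, v (some i) := by linarith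
        rw [h']
        simp [lft]
      | some i => simp [lft]
    rw [Finset.sum_congr rfl (fun o _ => e o), Finset.sum_neg_distrib]
    have := (hva X (Finset.subset_univ X)).2
    exact_mod_cast this

end Pool.Agent.W600.Opp
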