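import Pool.Agent.W600.Opp.Main

namespace Pool.Agent.W600.Opp

open Finset

section greedy
variable {V : Type*} [DecidableEq V]

theorem greedy0 (f : Finset V → ℤ) (h0 : f ∅ = 0) (W : Finset V) : Sub W f →
    ∃ v : V → ℤ, (∀ X, X ⊆ W → ∑ i ∈ X, v i ≤ f X) ∧ ∑ i ∈ W, v i = f W ∧
      ∀ i ∈ W, ∃ T, T ⊆ W ∧ i ∉ T ∧ ∑ j ∈ T, v j = f T ∧
        ∑ j ∈ insert i T, v j = f (insert i T) := by
  induction W using Finset.induction_on with
  | empty =>
    intro _
    refine ⟨fun _ => 0, ?_, by simp [h0], by simp⟩
    intro X hX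
    rw [Finset.subset_empty.mp hX, h0]; simp
  | insert a W ha ih =>
    intro hs
    obtain ⟨v, h1, h2, h3⟩ := ih (fun X Y hX hY => hs X Y
      (hX.trans (Finset.subset_insert a W)) (hY.trans (Finset.subset_insert a W)))
    have off : ∀ X : Finset V, a ∉ X →
        ∑ i ∈ X, (Function.update v a (f (insert a W) - f W)) i = ∑ i ∈ X, v i := by
      intro X hX
      apply Finset.sum_congr rfl
      intro i hi
      rw [Function.update_of_ne (show i ≠ a from fun e => hX (e ▸ hi))]
    have hW : ∑ i ∈ insert a W, (Function.update v a (f (insert a W) - f W)) i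
        = f (insert a W) := by
      rw [Finset.sum_insert ha, off W ha, h2, Function.update_self]; ring
    refine ⟨Function.update v a (f (insert a W) - f W), ?_, hW, ?_⟩
    · intro X hX
      by_cases haX : a ∈ X
      · have e0 : insert a (X.erase a) = X := Finset.insert_erase haX
        have hXe : X.erase a ⊆ W := by
          intro j hj
          rw [Finset.mem_erase] at hj
          exact (Finset.mem_insert.mp (hX hj.2)).resolve_left hj.1
        rw [← e0, Finset.sum_insert (Finset.notMem_erase a X),
          off _ (Finset.notMem_erase a X), Function.update_self, e0]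
        have hs' := hs X W hX (Finset.subset_insert a W)
        have e1 : X ∩ W = X.erase a := by
          ext j; simp only [Finset.mem_inter, Finset.mem_erase]
          constructor
          · rintro ⟨h, h'⟩; exact ⟨fun e => ha (e ▸ h'), h⟩
          · rintro ⟨h, h'⟩; exact ⟨h', hXe (Finset.mem_erase.mpr ⟨h, h'⟩)⟩
        have e2 : X ∪ W = insert a W := by
          ext j; simp only [Finset.mem_union, Finset.mem_insert]
          constructor
          · rintro (h | h)
            · exact Finset.mem_insert.mp (hX h)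
            · exact Or.inr h
          · rintro (h | h)
            · left; rw [h]; exact haX
            · exact Or.inr h
        rw [e1, e2] at hs'
        have := h1 _ hXe
        linarith
      · rw [off X haX]
        refine h1 X ?_
        intro j hj
        exact (Finset.mem_insert.mp (hX hj)).resolve_left (fun e => haX (e ▸ hj))
    · intro i hi
      by_cases hia : i = a
      · subst hia
        exact ⟨W, Finset.subset_insert i W, ha, by rw [off W ha, h2], hW⟩
      · have hiW : i ∈ W := (Finset.mem_insert.mp hi).resolve_left hia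
        obtain ⟨T, hT, hiT, t1, t2⟩ := h3 i hiW
        have haT : a ∉ T := fun h => ha (hT h)
        refine ⟨T, hT.trans (Finset.subset_insert a W), hiT, ?_, ?_⟩
        · rw [off T haT, t1]
        · rw [off _ (by
            rw [Finset.mem_insert, not_or]; exact ⟨fun e => hia e.symm, haT⟩), t2]

theorem greedy (f : Finset V → ℤ) (h0 : f ∅ = 0) {W A : Finset V} (hA : A ⊆ W) (hs : Sub W f) :
    ∃ v : V → ℤ, (∀ X, X ⊆ W → ∑ i ∈ X, v i ≤ f X) ∧ ∑ i ∈ W, v i = f W ∧
      ∑ i ∈ A, v i = f A ∧
      ∀ i ∈ W, ∃ T, T ⊆ W ∧ i ∉ T ∧ ∑ j ∈ T, v j = f T ∧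
        ∑ j ∈ insert i T, v j = f (insert i T) := by
  obtain ⟨v1, h1a, h1b, h1c⟩ := greedy0 f h0 A
    (fun X Y hX hY => hs X Y (hX.trans hA) (hY.trans hA))
  obtain ⟨v2, h2a, h2b, h2c⟩ := greedy0 (fun X => f (A ∪ X) - f A) (by simp) (W \ A)
    (by
      intro X Y hX hY
      have hun : ∀ X, X ⊆ W \ A → A ∪ X ⊆ W := fun X hX =>
        Finset.union_subset hA (hX.trans Finset.sdiff_subset)
      have hs' := hs (A ∪ X) (A ∪ Y) (hun X hX) (hun Y hY)
      have e1 : (A ∪ X) ∩ (A ∪ Y) = A ∪ (X ∩ Y) := by
        ext j; simp only [Finset.mem_inter, Finset.mem_union]; tauto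
      have e2 : (A ∪ X) ∪ (A ∪ Y) = A ∪ (X ∪ Y) := by
        ext j; simp only [Finset.mem_union]; tauto
      rw [e1, e2] at hs'
      show f (A ∪ (X ∩ Y)) - f A + (f (A ∪ (X ∪ Y)) - f A) ≤
        f (A ∪ X) - f A + (f (A ∪ Y) - f A)
      linarith)
  have key : ∀ X : Finset V, ∑ i ∈ X, (if i ∈ A then v1 i else v2 i) =
      ∑ i ∈ X ∩ A, v1 i + ∑ i ∈ X \ A, v2 i := by
    intro X
    rw [← Finset.sum_inter_add_sum_sdiff X A]
    congr 1
    · apply Finset.sum_congr rfl
      intro i hi
      rw [if_pos (Finset.mem_inter.mp hi).2]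
    · apply Finset.sum_congr rfl
      intro i hi
      rw [if_neg (Finset.mem_sdiff.mp hi).2]
  refine ⟨fun i => if i ∈ A then v1 i else v2 i, ?_, ?_, ?_, ?_⟩
  · intro X hX
    rw [key X]
    have hs' := hs X A hX hA
    have ha := h1a (X ∩ A) Finset.inter_subset_right
    have hb := h2a (X \ A) (Finset.sdiff_subset_sdiff hX (Finset.Subset.refl A))
    have he : A ∪ (X \ A) = X ∪ A := by
      ext i; simp only [Finset.mem_union, Finset.mem_sdiff]; tauto
    simp only [he] at hb
    linarith
  · rw [key W, Finset.inter_eq_right.mpr hA, h1b, h2b]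
    show f A + (f (A ∪ (W \ A)) - f A) = f W
    rw [Finset.union_sdiff_of_subset hA]; ring
  · rw [key A]
    simp [h1b]
  · intro i hi
    by_cases hiE : i ∈ A
    · obtain ⟨T, hT, hiT, ht1, ht2⟩ := h1c i hiE
      refine ⟨T, hT.trans hA, hiT, ?_, ?_⟩
      · rw [← ht1]; apply Finset.sum_congr rfl
        intro j hj; exact if_pos (hT hj)
      · rw [← ht2]; apply Finset.sum_congr rfl
        intro j hj
        apply if_pos
        rcases Finset.mem_insert.mp hj with h | h
        · rw [h]; exact hiE
        · exact hT h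
    · obtain ⟨T, hT, hiT, ht1, ht2⟩ := h2c i (Finset.mem_sdiff.mpr ⟨hi, hiE⟩)
      have hTW : T ⊆ W := hT.trans Finset.sdiff_subset
      have hTE : ∀ j ∈ T, j ∉ A := fun j hj => (Finset.mem_sdiff.mp (hT hj)).2
      have e1 : (A ∪ T) ∩ A = A := by
        ext j; simp only [Finset.mem_inter, Finset.mem_union]; tauto
      have e2 : (A ∪ T) \ A = T := by
        ext j; simp only [Finset.mem_sdiff, Finset.mem_union]
        constructor
        · rintro ⟨h | h, h'⟩
          · exact absurd h h'
          · exact h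
        · intro h; exact ⟨Or.inr h, hTE j h⟩
      have e3 : (insert i (A ∪ T)) ∩ A = A := by
        ext j; simp only [Finset.mem_inter, Finset.mem_union, Finset.mem_insert]; tauto
      have e4 : (insert i (A ∪ T)) \ A = insert i T := by
        ext j; simp only [Finset.mem_sdiff, Finset.mem_union, Finset.mem_insert]
        constructor
        · rintro ⟨h | h | h, h'⟩
          · exact Or.inl h
          · exact absurd h h'
          · exact Or.inr h
        · rintro (h | h)
          · exact ⟨Or.inl h, h ▸ hiE⟩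
          · exact ⟨Or.inr (Or.inr h), hTE j h⟩
      refine ⟨A ∪ T, Finset.union_subset hA hTW, ?_, ?_, ?_⟩
      · simp only [Finset.mem_union, not_or]; exact ⟨hiE, hiT⟩
      · rw [key _, e1, e2, h1b, ht1]; ring
      · rw [key _, e3, e4, h1b, ht2]
        have e5 : A ∪ insert i T = insert i (A ∪ T) := by
          ext j; simp only [Finset.mem_union, Finset.mem_insert]; tauto
        simp only [e5]; ring

end greedy

section lift
variable {S : Type*} [Fintype S] [DecidableEq S]

/-- The polyhedron `Q(p, b)`. -/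
def GQ (p b : Finset S → ℤ) : Set (S → ℝ) :=
  {x | ∀ A : Finset S, (p A : ℝ) ≤ ∑ i ∈ A, x i ∧ ∑ i ∈ A, x i ≤ (b A : ℝ)}

/-- `(p, b)` is a paired pair of set functions. -/
structure Paired (p b : Finset S → ℤ) : Prop where
  p_empty : p ∅ = 0
  b_empty : b ∅ = 0
  supermodular : ∀ X Y, p X + p Y ≤ p (X ∩ Y) + p (X ∪ Y)
  submodular : ∀ X Y, b (X ∩ Y) + b (X ∪ Y) ≤ b X + b Y
  cross : ∀ X Y, b (X \ Y) - p (Y \ X) ≤ b X - p Y

def tr (X : Finset (Option S)) : Finset S := univ.filter (fun i => some i ∈ X)

def lf (p b : Finset S → ℤ) (X : Finset (Option S)) : ℤ :=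
  if none ∈ X then - p (univ \ tr X) else b (tr X)

theorem mem_tr {X : Finset (Option S)} {i : S} : i ∈ tr X ↔ some i ∈ X := by
  simp [tr]

theorem tr_inter (X Y : Finset (Option S)) : tr (X ∩ Y) = tr X ∩ tr Y := by
  ext i; simp [mem_tr]

theorem tr_union (X Y : Finset (Option S)) : tr (X ∪ Y) = tr X ∪ tr Y := by
  ext i; simp [mem_tr]

theorem tr_compl (X : Finset (Option S)) : tr (univ \ X) = univ \ tr X := by
  ext i; simp [mem_tr]

theorem sum_none_notMem {M : Type*} [AddCommGroup M] (g : Option S → M)
    {X : Finset (Option S)} (h : none ∉ X) : ∑ i ∈ X, g i = ∑ i ∈ tr X, g (some i) := by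
  have e : X = (tr X).map Function.Embedding.some := by
    ext o
    rw [Finset.mem_map]
    constructor
    · intro ho
      cases o with
      | none => exact absurd ho h
      | some i => exact ⟨i, mem_tr.mpr ho, rfl⟩
    · rintro ⟨i, hi, rfl⟩
      exact mem_tr.mp hi
  conv_lhs => rw [e]
  rw [Finset.sum_map]; rfl

theorem sum_none_mem {M : Type*} [AddCommGroup M] (g : Option S → M) (hg : ∑ i, g i = 0)
    {X : Finset (Option S)} (h : none ∈ X) :
    ∑ i ∈ X, g i = - ∑ i ∈ univ \ tr X, g (some i) := by
  have h1 : none ∉ univ \ X := by simp [h]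
  have h2 := sum_none_notMem g h1
  rw [tr_compl] at h2
  rw [← h2, eq_neg_iff_add_eq_zero, ← hg, add_comm]
  exact Finset.sum_sdiff (Finset.subset_univ X)

def lft (x : S → ℝ) : Option S → ℝ := fun o => o.elim (- ∑ i, x i) x

theorem lft_sum (x : S → ℝ) : ∑ i, lft x i = 0 := by
  rw [Fintype.sum_option]; simp [lft]

theorem mem_GQ {p b : Finset S → ℤ} {x : S → ℝ} :
    x ∈ GQ p b ↔ ∀ X : Finset (Option S), ∑ i ∈ X, lft x i ≤ (lf p b X : ℝ) := by
  constructor
  · intro h X
    by_cases hX : none ∈ X
    · rw [sum_none_mem _ (lft_sum x) hX]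
      have := (h (univ \ tr X)).1
      simp only [lf, if_pos hX, Int.cast_neg]
      have e : ∑ i ∈ univ \ tr X, lft x (some i) = ∑ i ∈ univ \ tr X, x i := rfl
      rw [e]; linarith
    · rw [sum_none_notMem _ hX]
      have := (h (tr X)).2
      simp only [lf, if_neg hX]
      exact this
  · intro h A
    have h1 : none ∉ A.map (Function.Embedding.some) := by simp
    have t1 : tr (A.map (Function.Embedding.some)) = A := by
      ext i; simp [mem_tr]
    constructor
    · have h2 : none ∈ univ \ A.map (Function.Embedding.some) := by simp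
      have := h (univ \ A.map (Function.Embedding.some))
      rw [sum_none_mem _ (lft_sum x) h2, tr_compl, t1] at this
      simp only [lf, if_pos h2, Int.cast_neg] at this
      rw [tr_compl, t1, Finset.sdiff_sdiff_eq_self (Finset.subset_univ A)] at this
      have e : ∑ i ∈ A, lft x (some i) = ∑ i ∈ A, x i := rfl
      rw [e] at this; linarith
    · have := h (A.map (Function.Embedding.some))
      rw [sum_none_notMem _ h1, t1] at this
      simp only [lf, if_neg h1, t1] at this
      exact this

theorem lf_sub {p b : Finset S → ℤ} (h : Paired p b) : Sub univ (lf p b) := by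
  have mixed : ∀ X Y : Finset (Option S), none ∈ X → none ∉ Y →
      lf p b (X ∩ Y) + lf p b (X ∪ Y) ≤ lf p b X + lf p b Y := by
    intro X Y h1 h2
    have i1 : none ∉ X ∩ Y := fun e => h2 (Finset.mem_inter.mp e).2
    have i2 : none ∈ X ∪ Y := Finset.mem_union_left _ h1
    simp only [lf, if_pos h1, if_neg h2, if_neg i1, if_pos i2]
    rw [tr_inter, tr_union]
    have hc := h.cross (tr Y) (univ \ tr X)
    have e1 : tr Y \ (univ \ tr X) = tr X ∩ tr Y := by
      ext i; simp only [Finset.mem_sdiff, Finset.mem_univ, true_and, not_not, Finset.mem_inter]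
      tauto
    have e2 : (univ \ tr X) \ tr Y = univ \ (tr X ∪ tr Y) := by
      ext i; simp only [Finset.mem_sdiff, Finset.mem_univ, true_and, Finset.mem_union]
      tauto
    rw [e1, e2] at hc
    linarith
  intro X Y _ _
  by_cases h1 : none ∈ X <;> by_cases h2 : none ∈ Y
  · have i1 : none ∈ X ∩ Y := Finset.mem_inter.mpr ⟨h1, h2⟩
    have i2 : none ∈ X ∪ Y := Finset.mem_union_left _ h1
    simp only [lf, if_pos h1, if_pos h2, if_pos i1, if_pos i2]
    rw [tr_inter, tr_union]
    have hc := h.supermodular (univ \ tr X) (univ \ tr Y)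
    have e1 : (univ \ tr X) ∩ (univ \ tr Y) = univ \ (tr X ∪ tr Y) := by
      ext i; simp only [Finset.mem_sdiff, Finset.mem_univ, true_and, Finset.mem_inter,
        Finset.mem_union]
      tauto
    have e2 : (univ \ tr X) ∪ (univ \ tr Y) = univ \ (tr X ∩ tr Y) := by
      ext i; simp only [Finset.mem_sdiff, Finset.mem_univ, true_and, Finset.mem_inter,
        Finset.mem_union]
      tauto
    rw [e1, e2] at hc
    linarith
  · exact mixed X Y h1 h2
  · have := mixed Y X h2 h1
    rw [Finset.inter_comm, Finset.union_comm] at this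
    linarith
  · have i1 : none ∉ X ∩ Y := fun e => h2 (Finset.mem_inter.mp e).2
    have i2 : none ∉ X ∪ Y := fun e => (Finset.mem_union.mp e).elim h1 h2
    simp only [lf, if_neg h1, if_neg h2, if_neg i1, if_neg i2]
    rw [tr_inter, tr_union]
    exact h.submodular (tr X) (tr Y)

theorem lf_empty {p b : Finset S → ℤ} (h : Paired p b) : lf p b ∅ = 0 := by
  have : tr (∅ : Finset (Option S)) = ∅ := by ext i; simp [mem_tr]
  simp [lf, this, h.b_empty]

theorem lf_univ {p b : Finset S → ℤ} (h : Paired p b) : lf p b univ = 0 := by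
  have : tr (univ : Finset (Option S)) = univ := by ext i; simp [mem_tr]
  simp [lf, this, h.p_empty]

/-- integer points with separating tight sets are extreme points -/
theorem extreme_of_tight {p b : Finset S → ℤ} (v : Option S → ℤ) (hv0 : ∑ i, v i = 0)
    (hle : ∀ X, ∑ i ∈ X, v i ≤ lf p b X)
    (ht : ∀ i, ∃ T, ∑ j ∈ T, v j = lf p b T ∧ i ∉ T ∧
      ∑ j ∈ insert i T, v j = lf p b (insert i T)) :
    (fun i => (v (some i) : ℝ)) ∈ (GQ p b).extremePoints ℝ := by
  have hl : lft (fun i => (v (some i) : ℝ)) = fun o => (v o : ℝ) := by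
    funext o
    cases o with
    | none =>
      rw [Fintype.sum_option] at hv0
      have : (v none : ℝ) = - ∑ i, (v (some i) : ℝ) := by
        have h' : v none = - ∑ i, v (some i) := by linarith
        rw [h']; push_cast; rfl
      simp [lft, this]
    | some i => rfl
  rw [mem_extremePoints_iff_left]
  constructor
  · rw [mem_GQ, hl]
    intro X
    have := hle X
    show ∑ i ∈ X, (v i : ℝ) ≤ _
    exact_mod_cast this
  · intro x1 hx1 x2 hx2 hseg
    obtain ⟨α, β, hα, hβ, hαβ, hx⟩ := hseg
    rw [mem_GQ] at hx1 hx2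
    have lin : ∀ X : Finset (Option S), ∑ i ∈ X, (v i : ℝ) =
        α * ∑ i ∈ X, lft x1 i + β * ∑ i ∈ X, lft x2 i := by
      intro X
      have e : ∀ o, (v o : ℝ) = α * lft x1 o + β * lft x2 o := by
        intro o
        have e0 : (v o : ℝ) = lft (fun i => (v (some i) : ℝ)) o := by rw [hl]
        rw [e0, ← hx]
        cases o with
        | none =>
          simp only [lft, Option.elim, Pi.add_apply, Pi.smul_apply, smul_eq_mul,
            Finset.sum_add_distrib, ← Finset.mul_sum]
          ring
        | some i => simp [lft]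
      rw [Finset.mul_sum, Finset.mul_sum, ← Finset.sum_add_distrib]
      exact Finset.sum_congr rfl (fun o _ => e o)
    have tight : ∀ T, ∑ j ∈ T, v j = lf p b T → ∑ i ∈ T, lft x1 i = (lf p b T : ℝ) := by
      intro T hT
      have h1 := hx1 T
      have h2 := hx2 T
      have h3 := lin T
      have h4 : ∑ i ∈ T, (v i : ℝ) = (lf p b T : ℝ) := by exact_mod_cast hT
      rw [h4] at h3
      apply le_antisymm h1
      by_contra hlt
      push Not at hlt
      have : α * ∑ i ∈ T, lft x1 i < α * (lf p b T : ℝ) := mul_lt_mul_of_pos_left hlt hα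
      have : β * ∑ i ∈ T, lft x2 i ≤ β * (lf p b T : ℝ) := mul_le_mul_of_nonneg_left h2 hβ.le
      have : (lf p b T : ℝ) = (α + β) * (lf p b T : ℝ) := by rw [hαβ, one_mul]
      linarith
    funext i
    obtain ⟨T, t1, t2, t3⟩ := ht (some i)
    have u1 := tight T t1
    have u2 := tight _ t3
    rw [Finset.sum_insert t2, u1] at u2
    have u3 : (v (some i) : ℝ) + (lf p b T : ℝ) = (lf p b (insert (some i) T) : ℝ) := by
      rw [Finset.sum_insert t2, t1] at t3
      exact_mod_cast t3
    have u4 : lft x1 (some i) = x1 i := rfl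
    rw [u4] at u2
    linarith

end lift

end Pool.Agent.W600.Opp
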