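import Pool.Agent.W600.Opp.Comb3

namespace Pool.Agent.W600.Opp

open Finset

variable {V : Type*} [DecidableEq V] {W : Finset V} {f : Finset V → ℤ} {r : V}

theorem Red.good (h : Red W f r) (h2 : ∃ a ∈ W, a ≠ r) : Good W f := by
  classical
  by_contra hng
  obtain ⟨a, ha, har⟩ := h2
  -- values at singletons
  have hcardW : ∀ i ∈ W, i ≠ r → f {i} = 1 ∧ f (W \ {i}) = 1 := by
    intro i hi hir
    have u := h.one i hi hir
    have hne : W ≠ {i} := by
      intro e
      apply hng
      refine ⟨fun _ => 0, by simp, ?_, ?_⟩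
      · intro X hX
        have := h.nonneg hX
        simp [this]
      · intro j hj
        refine ⟨∅, by simp, by simp, by simp [h.emp], ?_⟩
        have hji : j = i := by rw [e] at hj; simpa using hj
        have : (insert j ∅ : Finset V) = W := by rw [e, hji]; rfl
        rw [this, h.top]; simp
    have u1 := h.pos {i} (by simpa using hi) (by simp) (fun e => hne e.symm)
    have u2 := h.pos (W \ {i}) Finset.sdiff_subset (by
      intro e
      have := Finset.sdiff_eq_empty_iff_subset.mp e
      exact hne (Finset.Subset.antisymm this (by simpa using hi))) (by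
      intro e
      have : i ∈ W \ {i} := by rw [e]; exact hi
      simp at this)
    omega
  have nb : ∀ x ∈ W, x ≠ r → ∀ y, ∃ z ∈ W, z ≠ x ∧ z ≠ y ∧ GG W f x z := by
    intro x hx hxr y
    obtain ⟨b, b', hbb, hb, hb', hbx, hbx', hg, hg'⟩ :=
      h.nbrs hng hx (hcardW x hx hxr).1 (hcardW x hx hxr).2
    by_cases hby : b = y
    · exact ⟨b', hb', hbx', fun e => hbb (hby.trans e.symm), hg'⟩
    · exact ⟨b, hb, hbx, hby, hg⟩
  -- no two disjoint edges
  have no2 : ∀ p q s t, p ∈ W → q ∈ W → s ∈ W → t ∈ W → p ≠ q → p ≠ s → p ≠ t → q ≠ s →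
      q ≠ t → s ≠ t → GG W f p q → GG W f s t → False :=
    fun p q s t hp hq hs ht h1 h2 h3 h4 h5 h6 g1 g2 =>
      hng (h.type2 hp hq hs ht h1 h2 h3 h4 h5 h6 g1 g2)
  obtain ⟨b, hb, hba, hbr, hgab⟩ := nb a ha har r
  obtain ⟨c', hc', hca', hcb', hgac⟩ := nb a ha har b
  obtain ⟨c, hc, hcb, hca, hgbc⟩ := nb b hb hbr a
  have hcc : c' = c := by
    by_contra hne
    exact no2 a c' b c ha hc' hb hc hca'.symm hba.symm hca.symm hcb' hne hcb.symm hgac hgbc
  subst hcc
  -- neighbours of `a` are `b` and `c`
  have na : ∀ y ∈ W, y ≠ a → GG W f a y → y = b ∨ y = c' := by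
    intro y hy hya hg
    by_contra hcon
    rw [not_or] at hcon
    exact no2 a y b c' ha hy hb hc hya.symm hba.symm hca.symm hcon.1 hcon.2 hcb.symm hg hgbc
  have nbb : ∀ y ∈ W, y ≠ b → GG W f b y → y = a ∨ y = c' := by
    intro y hy hyb hg
    by_contra hcon
    rw [not_or] at hcon
    exact no2 b y a c' hb hy ha hc hyb.symm hba hcb.symm hcon.1 hcon.2 hca.symm hg hgac
  have only : ∀ x ∈ W, x ≠ a → x ≠ b → x ≠ c' → x = r := by
    intro x hx hxa hxb hxc
    by_contra hxr
    obtain ⟨y, hy, hyx, hyc, hg⟩ := nb x hx hxr c'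
    have hya : y ≠ a := by
      rintro rfl
      rcases na x hx hxa hg.symm with h' | h'
      · exact hxb h'
      · exact hxc h'
    have hyb : y ≠ b := by
      rintro rfl
      rcases nbb x hx hxb hg.symm with h' | h'
      · exact hxa h'
      · exact hxc h'
    exact no2 x y a b hx hy ha hb hyx.symm hxa hxb hya hyb hba.symm hg hgab
  by_cases hr : r ∈ W ∧ r ≠ c'
  · obtain ⟨hrW, hrc⟩ := hr
    have e1 : W \ {b, c'} = {a, r} := by
      ext j; simp only [Finset.mem_sdiff, Finset.mem_insert, Finset.mem_singleton, not_or]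
      constructor
      · rintro ⟨h1, h2, h3⟩
        by_cases hja : j = a
        · exact Or.inl hja
        · exact Or.inr (only j h1 hja h2 h3)
      · rintro (h1 | h1)
        · rw [h1]; exact ⟨ha, hba.symm, hca.symm⟩
        · rw [h1]; exact ⟨hrW, hbr.symm, hrc⟩
    have e2 : W \ {a, r} = {b, c'} := by
      ext j; simp only [Finset.mem_sdiff, Finset.mem_insert, Finset.mem_singleton, not_or]
      constructor
      · rintro ⟨h1, h2, h3⟩
        by_cases hjb : j = b
        · exact Or.inl hjb
        · by_cases hjc : j = c'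
          · exact Or.inr hjc
          · exact absurd (only j h1 h2 hjb hjc) h3
      · rintro (h1 | h1)
        · rw [h1]; exact ⟨hb, hba, hbr⟩
        · rw [h1]; exact ⟨hc, hca, fun e => hrc e.symm⟩
    have hg : GG W f a r := ⟨by rw [← e1]; exact hgbc.2, by rw [e2]; exact hgbc.1⟩
    rcases na r hrW har.symm hg with h' | h'
    · exact hbr h'.symm
    · exact hrc h'
  · have e1 : W \ {b} = {a, c'} := by
      ext j; simp only [Finset.mem_sdiff, Finset.mem_insert, Finset.mem_singleton]
      constructor
      · rintro ⟨h1, h2⟩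
        by_cases hja : j = a
        · exact Or.inl hja
        · by_cases hjc : j = c'
          · exact Or.inr hjc
          · exfalso
            have hjr := only j h1 hja h2 hjc
            subst hjr
            exact hr ⟨h1, hjc⟩
      · rintro (h1 | h1)
        · rw [h1]; exact ⟨ha, hba.symm⟩
        · rw [h1]; exact ⟨hc, hcb⟩
    have := (h.one b hb hbr).2
    rw [e1, hgac.1] at this
    norm_num at this

/-- Main combinatorial theorem: values at most two. -/
theorem good_of_le_two (r : V) : ∀ (n : ℕ) (W : Finset V) (f : Finset V → ℤ), W.card = n →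
    Sub W f → f ∅ = 0 → f W = 0 → (∀ X, X ⊆ W → 0 ≤ f X) → (∀ X, X ⊆ W → f X ≤ 2) →
    (∀ i ∈ W, i ≠ r → f {i} ≤ 1 ∧ f (W \ {i}) ≤ 1) → Good W f := by
  intro n
  induction n using Nat.strong_induction_on with
  | _ n ih =>
  intro W f hn hsub hemp htop hnn hle hone
  by_cases hz : ∃ E, E ⊆ W ∧ E ≠ ∅ ∧ E ≠ W ∧ f E = 0
  · obtain ⟨E, hEW, hE0, hEW', hfE⟩ := hz
    have hss : E ⊂ W := lt_of_le_of_ne hEW hEW'
    have hc1 : E.card < n := by rw [← hn]; exact Finset.card_lt_card hss
    have hc2 : (W \ E).card < n := by
      rw [← hn]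
      apply Finset.card_lt_card
      refine lt_of_le_of_ne Finset.sdiff_subset ?_
      intro e
      obtain ⟨x, hx⟩ := Finset.nonempty_iff_ne_empty.mpr hE0
      have : x ∈ W \ E := by rw [e]; exact hEW hx
      exact (Finset.mem_sdiff.mp this).2 hx
    have g1 : Good E f := by
      refine ih E.card hc1 E f rfl ?_ hemp hfE (fun X hX => hnn X (hX.trans hEW))
        (fun X hX => hle X (hX.trans hEW)) ?_
      · intro X Y hX hY; exact hsub X Y (hX.trans hEW) (hY.trans hEW)
      · intro i hi hir
        refine ⟨(hone i (hEW hi) hir).1, ?_⟩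
        have hs := hsub E (W \ {i}) hEW Finset.sdiff_subset
        have e1 : E ∩ (W \ {i}) = E \ {i} := by
          ext j; simp only [Finset.mem_inter, Finset.mem_sdiff, Finset.mem_singleton]
          have := @hEW j
          tauto
        have e2 : E ∪ (W \ {i}) = W := by
          ext j; simp only [Finset.mem_union, Finset.mem_sdiff, Finset.mem_singleton]
          constructor
          · rintro (h1 | h1)
            · exact hEW h1
            · exact h1.1
          · intro h1
            by_cases hj : j = i
            · left; rw [hj]; exact hi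
            · right; exact ⟨h1, hj⟩
        rw [e1, e2, htop, hfE] at hs
        have := (hone i (hEW hi) hir).2
        linarith
    have g2 : Good (W \ E) (fun X => f (E ∪ X)) := by
      have hun : ∀ X, X ⊆ W \ E → E ∪ X ⊆ W := fun X hX =>
        Finset.union_subset hEW (hX.trans Finset.sdiff_subset)
      refine ih (W \ E).card hc2 (W \ E) (fun X => f (E ∪ X)) rfl ?_ ?_ ?_
        (fun X hX => hnn _ (hun X hX)) (fun X hX => hle _ (hun X hX)) ?_
      · intro X Y hX hY
        have hs := hsub (E ∪ X) (E ∪ Y) (hun X hX) (hun Y hY)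
        have e1 : (E ∪ X) ∩ (E ∪ Y) = E ∪ (X ∩ Y) := by
          ext j; simp only [Finset.mem_inter, Finset.mem_union]; tauto
        have e2 : (E ∪ X) ∪ (E ∪ Y) = E ∪ (X ∪ Y) := by
          ext j; simp only [Finset.mem_union]; tauto
        rw [e1, e2] at hs
        exact hs
      · simpa using hfE
      · show f (E ∪ (W \ E)) = 0
        rw [Finset.union_sdiff_of_subset hEW]; exact htop
      · intro i hi hir
        have hi' := Finset.mem_sdiff.mp hi
        constructor
        · have hs := hsub E {i} hEW (by simpa using hi'.1)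
          have e1 : E ∩ {i} = ∅ := by
            ext j; simp only [Finset.mem_inter, Finset.mem_singleton]
            constructor
            · rintro ⟨h1, rfl⟩; exact absurd h1 hi'.2
            · intro h; simp at h
          rw [e1, hemp, hfE] at hs
          have := (hone i hi'.1 hir).1
          show f (E ∪ {i}) ≤ 1
          linarith
        · show f (E ∪ ((W \ E) \ {i})) ≤ 1
          have e2 : E ∪ ((W \ E) \ {i}) = W \ {i} := by
            ext j; simp only [Finset.mem_union, Finset.mem_sdiff, Finset.mem_singleton]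
            constructor
            · rintro (h1 | h1)
              · exact ⟨hEW h1, fun e => hi'.2 (e ▸ h1)⟩
              · exact ⟨h1.1.1, h1.2⟩
            · rintro ⟨h1, h2⟩
              by_cases hj : j ∈ E
              · exact Or.inl hj
              · exact Or.inr ⟨⟨h1, hj⟩, h2⟩
          rw [e2]; exact (hone i hi'.1 hir).2
    exact good_glue hEW hsub hfE g1 g2
  · have hpos : ∀ X, X ⊆ W → X ≠ ∅ → X ≠ W → 1 ≤ f X := by
      intro X hX h1 h2
      have := hnn X hX
      by_contra hlt
      exact hz ⟨X, hX, h1, h2, by omega⟩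
    by_cases h2 : ∃ a ∈ W, a ≠ r
    · exact Red.good ⟨hsub, hemp, htop, hpos, hle, hone⟩ h2
    · push Not at h2
      refine ⟨fun _ => 0, by simp, ?_, ?_⟩
      · intro X hX
        have := hnn X hX
        simp [this]
      · intro j hj
        refine ⟨∅, by simp, by simp, by simp [hemp], ?_⟩
        have : (insert j ∅ : Finset V) = W := by
          ext i; simp only [Finset.mem_insert, Finset.notMem_empty, or_false]
          constructor
          · rintro rfl; exact hj
          · intro hi; rw [h2 i hi, h2 j hj]
        rw [this, htop]; simp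

end Pool.Agent.W600.Opp
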